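import Pool.Agent.H21.WP.Df
import Pool.Agent.H96.WP.Core

/-!
MP_8923e7_nt, THEOREM W+: from `CoreA` (helper96) to families of pairwise coprime moduli, classes given as units.
-/

namespace Pool.Agent.H21.WP

open Finset Pool.Agent.H96.WP

/-- the Chinese remainder theorem for `L` and a family -/
theorem crt_nat (L s₀ t : ℕ) (Q : Fin t → ℕ) (hL : 0 < L) (hs : Nat.Coprime s₀ L)
    (hQ : ∀ i, 0 < Q i) (hQL : ∀ i, Nat.Coprime (Q i) L)
    (hQQ : ∀ i j, i ≠ j → Nat.Coprime (Q i) (Q j)) (x : Fin t → ℕ)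
    (hx : ∀ i, Nat.Coprime (x i) (Q i)) :
    ∃ y : ℕ, y ≡ s₀ [MOD L] ∧ (∀ i, y ≡ x i [MOD Q i]) ∧ Nat.Coprime y (L * ∏ i, Q i) := by
  let sm : Option (Fin t) → ℕ := fun o => o.elim L Q
  let am : Option (Fin t) → ℕ := fun o => o.elim s₀ x
  obtain ⟨y, hy⟩ := Nat.chineseRemainderOfFinset am sm univ (by
    rintro (_ | i) _
    · exact hL.ne'
    · exact (hQ i).ne') (by
    rintro (_ | i) _ (_ | j) _ hij
    · exact absurd rfl hij
    · exact (hQL j).symm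
    · exact hQL i
    · exact hQQ i j (fun h => hij (by rw [h])))
  have h1 : y ≡ s₀ [MOD L] := hy none (mem_univ _)
  have h2 : ∀ i, y ≡ x i [MOD Q i] := fun i => hy (some i) (mem_univ _)
  refine ⟨y, h1, h2, Nat.Coprime.mul_right ?_ (Nat.Coprime.prod_right fun i _ => ?_)⟩
  · rw [Nat.coprime_iff_gcd_eq_one, h1.gcd_eq]
    exact hs
  · rw [Nat.coprime_iff_gcd_eq_one, (h2 i).gcd_eq]
    exact hx i

theorem fam_core {e : ℝ} {m s K : ℕ} (h : CoreA e m s K) (he : e < 13 / 50) (hm : 1 ≤ m)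
    (L s₀ t : ℕ) (Q : Fin t → ℕ) (hL : 0 < L) (hs : Nat.Coprime s₀ L)
    (hQ : ∀ i, 0 < Q i) (hQL : ∀ i, Nat.Coprime (Q i) L)
    (hQQ : ∀ i j, i ≠ j → Nat.Coprime (Q i) (Q j)) :
    ∃ c : ℝ, 0 < c ∧ ∃ H₀ X₀ : ℕ, ∀ cl : ∀ i : Fin t, Fin (m * s) → (ZMod (Q i))ˣ,
      ∀ X ≥ X₀, ∀ H ≥ H₀, (H : ℝ) ≤ Real.log X →
        ∃ A : Finset (Fin (m * s)), (13 / 50 - e) * m ≤ ((A.image Fin.divNat).card : ℝ) ∧
          0 < A.card ∧ ∀ i, c * (H / Real.log X) ^ K * (X / Real.log X) ≤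
            ((Hit L s₀ (Q i) (fun j : Fin A.card => cl i (A.orderEmbOfFin rfl j)) X H).ncard : ℝ) := by
  classical
  obtain ⟨c, H0, X0, hc, hmain⟩ := h (L * ∏ i, Q i)
    (Nat.mul_pos hL (Finset.prod_pos fun i _ => hQ i))
  refine ⟨c, hc, H0, X0, fun cl X hX H hH hHX => ?_⟩
  haveI : ∀ i, NeZero (Q i) := fun i => ⟨(hQ i).ne'⟩
  choose ρ hρ1 hρ2 hρ3 using fun a : Fin (m * s) => crt_nat L s₀ t Q hL hs hQ hQL hQQ
    (fun i => ((cl i a : (ZMod (Q i))ˣ) : ZMod (Q i)).val) (fun i => ZMod.val_coe_unit_coprime (cl i a))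
  obtain ⟨A, hA1, hA2⟩ := hmain ρ hρ3 X H hX hH hHX
  have hA0 : 0 < A.card := by
    have h1 : (0 : ℝ) < (13 / 50 - e) * m := by
      have : (1 : ℝ) ≤ m := by exact_mod_cast hm
      have h2 : 0 < 13 / 50 - e := by linarith
      positivity
    have h2 : 0 < (A.image Fin.divNat).card := by
      have := h1.trans_le hA1
      exact_mod_cast this
    exact h2.trans_le card_image_le
  refine ⟨A, hA1, hA0, fun i => hA2.trans ?_⟩
  have hsub : (((range X).filter (fun j => ∀ i : Fin A.card, Nat.nth Nat.Prime (j + i) ≤ X ∧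
      Nat.nth Nat.Prime (j + i) ≤ Nat.nth Nat.Prime j + H ∧
      Nat.nth Nat.Prime (j + i) ≡ ρ (A.orderEmbOfFin rfl i) [MOD (L * ∏ i, Q i)]) : Finset ℕ) : Set ℕ) ⊆
      Hit L s₀ (Q i) (fun j : Fin A.card => cl i (A.orderEmbOfFin rfl j)) X H := by
    intro n hn j
    rw [mem_coe, mem_filter] at hn
    obtain ⟨h1, h2, h3⟩ := hn.2 j
    refine ⟨h1, h2, ?_, ?_⟩
    · exact (h3.of_dvd (Dvd.intro _ rfl)).trans (hρ1 _)
    · have h4 : Q i ∣ L * ∏ i, Q i := (Finset.dvd_prod_of_mem Q (mem_univ i)).mul_left L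
      have h5 := (h3.of_dvd h4).trans (hρ2 (A.orderEmbOfFin rfl j) i)
      rw [(ZMod.natCast_eq_natCast_iff _ _ _).2 h5, ZMod.natCast_zmod_val]
  have h6 := Set.ncard_le_ncard hsub (hit_finite L s₀ (Q i) hA0 _ X H)
  rw [Set.ncard_coe_finset] at h6
  unfold cntA
  exact_mod_cast h6

/-- words of length `k + 1`: some strictly increasing choice of positions -/
theorem words_fam {s K : ℕ} (k : ℕ) (h : CoreA (1 / 1000) (4 * (k + 1)) s K)
    (L s₀ t : ℕ) (Q : Fin t → ℕ) (hL : 0 < L) (hs : Nat.Coprime s₀ L)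
    (hQ : ∀ i, 0 < Q i) (hQL : ∀ i, Nat.Coprime (Q i) L)
    (hQQ : ∀ i j, i ≠ j → Nat.Coprime (Q i) (Q j)) :
    ∃ c : ℝ, 0 < c ∧ ∃ H₀ X₀ : ℕ, ∀ cl : ∀ i : Fin t, Fin (4 * (k + 1) * s) → (ZMod (Q i))ˣ,
      ∀ X ≥ X₀, ∀ H ≥ H₀, (H : ℝ) ≤ Real.log X →
        ∃ I : Fin (k + 1) → Fin (4 * (k + 1) * s), StrictMono I ∧
          ∀ i, c * (H / Real.log X) ^ K * (X / Real.log X) ≤
            ((Hit L s₀ (Q i) (cl i ∘ I) X H).ncard : ℝ) := by
  obtain ⟨c, hc, H₀, X₀, hmain⟩ := fam_core h (by norm_num) (by omega) L s₀ t Q hL hs hQ hQL hQQ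
  refine ⟨c, hc, H₀, X₀, fun cl X hX H hH hHX => ?_⟩
  obtain ⟨A, hA1, -, hA3⟩ := hmain cl X hX H hH hHX
  have hk : k + 1 ≤ A.card := by
    have h1 : ((k : ℝ) + 1) ≤ ((A.image Fin.divNat).card : ℝ) := by
      refine le_trans ?_ hA1
      push_cast
      nlinarith [(Nat.cast_nonneg k : (0 : ℝ) ≤ k)]
    have h2 : k + 1 ≤ (A.image Fin.divNat).card := by exact_mod_cast h1
    exact h2.trans card_image_le
  refine ⟨fun i => A.orderEmbOfFin rfl (Fin.castLE hk i), ?_, fun i => (hA3 i).trans ?_⟩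
  · exact (A.orderEmbOfFin rfl).strictMono.comp (Fin.strictMono_castLE hk)
  · have := hit_factor (L := L) (s := s₀) (Nat.succ_pos k) 0 (by omega)
      (cl i ∘ fun i => A.orderEmbOfFin rfl (Fin.castLE hk i))
      (fun j : Fin A.card => cl i (A.orderEmbOfFin rfl j)) (fun j => by
        show cl i (A.orderEmbOfFin rfl (Fin.castLE hk j)) = cl i (A.orderEmbOfFin rfl ⟨0 + j, _⟩)
        congr 2
        ext
        simp) X H
    exact_mod_cast this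

end Pool.Agent.H21.WP
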