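import Mathlib

/-!
MP_8923e7_nt, THEOREM W+: definitions. `Hit L s Q w X H`: the `n` such that the consecutive primes
`p_n, ..., p_(n+r-1)` are at most `X`, lie in a window of length `H`, are `≡ s (mod L)` and have the classes
`w 0, ..., w (r-1)` modulo `Q`.
-/

namespace Pool.Agent.H21.WP

open Finset

/-- strings of consecutive primes with the classes `w` -/
def Hit (L s Q : ℕ) {r : ℕ} (w : Fin r → (ZMod Q)ˣ) (X H : ℕ) : Set ℕ :=
  {n : ℕ | ∀ i : Fin r, Nat.nth Nat.Prime (n + i) ≤ X ∧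
    Nat.nth Nat.Prime (n + i) ≤ Nat.nth Nat.Prime n + H ∧
    Nat.nth Nat.Prime (n + i) ≡ s [MOD L] ∧ ((Nat.nth Nat.Prime (n + i) : ℕ) : ZMod Q) = w i}

/-- the consecutive primes `p_n, ..., p_(n+k)` have the classes `w` and lie within `η log p_n` -/
def Near (L s Q k : ℕ) (w : Fin (k + 1) → (ZMod Q)ˣ) (η : ℝ) : Set ℕ :=
  {n : ℕ | (Nat.nth Nat.Prime (n + k) : ℝ) ≤ Nat.nth Nat.Prime n + η * Real.log (Nat.nth Nat.Prime n) ∧
    ∀ i : Fin (k + 1), Nat.nth Nat.Prime (n + i) ≡ s [MOD L] ∧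
      ((Nat.nth Nat.Prime (n + i) : ℕ) : ZMod Q) = w i}

/-- positive upper density at every scale `η` -/
def Freq (L s Q k : ℕ) (w : Fin (k + 1) → (ZMod Q)ˣ) : Prop :=
  ∀ η : ℝ, 0 < η → ∃ c : ℝ, 0 < c ∧
    ∃ᶠ N : ℕ in Filter.atTop, c * N ≤ ((Near L s Q k w η ∩ {n | n < N}).ncard : ℝ)

theorem hit_finite (L s Q : ℕ) {r : ℕ} (hr : 0 < r) (w : Fin r → (ZMod Q)ˣ) (X H : ℕ) :
    (Hit L s Q w X H).Finite := by
  refine Set.Finite.subset (Set.finite_Iic X) fun n hn => ?_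
  have h1 := (hn ⟨0, hr⟩).1
  have h2 : n ≤ Nat.nth Nat.Prime n :=
    (Nat.nth_strictMono Nat.infinite_setOfPred_prime).le_apply
  simp only [add_zero] at h1
  exact Set.mem_Iic.2 (h2.trans h1)

/-- a factor of a word -/
theorem hit_factor {L s Q r r' : ℕ} (hr : 0 < r) (o : ℕ) (ho : o + r ≤ r') (w : Fin r → (ZMod Q)ˣ)
    (w' : Fin r' → (ZMod Q)ˣ) (hw : ∀ i : Fin r, w i = w' ⟨o + i, by omega⟩) (X H : ℕ) :
    (Hit L s Q w' X H).ncard ≤ (Hit L s Q w X H).ncard := by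
  refine Set.ncard_le_ncard_of_injOn (fun n => n + o) ?_ (fun a _ b _ h => by
    simpa using h) (hit_finite L s Q hr w X H)
  intro n hn i
  have h1 := hn ⟨o + i, by omega⟩
  have h2 : n + o + i = n + (o + i) := by ring
  have h3 : Nat.nth Nat.Prime n ≤ Nat.nth Nat.Prime (n + o) :=
    (Nat.nth_strictMono Nat.infinite_setOfPred_prime).monotone (by omega)
  simp only [h2] at h1 ⊢
  refine ⟨h1.1, h1.2.1.trans (by omega), h1.2.2.1, ?_⟩
  rw [hw i]
  exact h1.2.2.2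

end Pool.Agent.H21.WP
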