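import Pool.Agent.H21.WP.Fin2

/-!
Patterns of residue classes of consecutive primes. Let `p_0 < p_1 < ...` be the primes. A word `w 0, ..., w k` of reduced
classes modulo `Q` OCCURS if for some tuple `0 = h 0 < ... < h k` there are infinitely many `m` such that
`m + h 0, ..., m + h k` are consecutive primes in the classes `w 0, ..., w k` (and all `≡ s (mod L)`); it is FREQUENT if
for every `η > 0` the `n` for which the primes `p_n, ..., p_(n+k)` have these classes and `p_(n+k) - p_n ≤ η log p_n`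
have positive upper density.

(1) For all primes `p` but fewer than `t k` and all `e` all words modulo `p ^ e` occur and are frequent; the same for
all moduli coprime to some `Q₀`.
(2) For every `Q`, at all scales `H₀ ≤ H ≤ log X`, at least `φ(Q)^(k+1) / t k` of the words have at least
`c (H / log X)^K X / log X` occurrences up to `X` in windows of length `H`. Here `t 1 = 3`.
(3) For all primes `p` but at most one and all `e` all words `a ... a b ... b` modulo `p ^ e` occur, and for all primes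
`p` but at most one and all `e` they are frequent.
-/

namespace Pool.Agent.Results.MP_8923e7_nt.ConsecutiveWords

/-- `m + h 0 < ... < m + h k` are consecutive primes -/
def Consecutive {k : ℕ} (m : ℕ) (h : Fin (k + 1) → ℕ) : Prop :=
  StrictMono h ∧ (∀ j, (m + h j).Prime) ∧
    ∀ q : ℕ, q.Prime → m + h 0 ≤ q → q ≤ m + h (Fin.last k) → ∃ j, q = m + h j

/-- the word `w` of `k + 1` reduced classes modulo `Q` occurs -/
def Occurs (k L s Q : ℕ) (w : Fin (k + 1) → (ZMod Q)ˣ) : Prop :=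
  ∃ h : Fin (k + 1) → ℕ, h 0 = 0 ∧ {m : ℕ | Consecutive m h ∧
    ∀ j, m + h j ≡ s [MOD L] ∧ ((m + h j : ℕ) : ZMod Q) = w j}.Infinite

/-- the primes `p_n, ..., p_(n+k)` are `≡ s (mod L)` and have the classes `w` modulo `Q` -/
def Reads {k : ℕ} (L s Q : ℕ) (w : Fin (k + 1) → (ZMod Q)ˣ) (n : ℕ) : Prop :=
  ∀ j : Fin (k + 1), Nat.nth Nat.Prime (n + j) ≡ s [MOD L] ∧
    ((Nat.nth Nat.Prime (n + j) : ℕ) : ZMod Q) = w j

/-- positive upper density, with `p_(n+k) - p_n ≤ η log p_n`, for every `η > 0` -/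
def Frequent (k L s Q : ℕ) (w : Fin (k + 1) → (ZMod Q)ˣ) : Prop :=
  ∀ η : ℝ, 0 < η → ∃ c : ℝ, 0 < c ∧ ∃ᶠ N : ℕ in Filter.atTop,
    c * N ≤ ({n : ℕ | n < N ∧ Reads L s Q w n ∧ (Nat.nth Nat.Prime (n + k) : ℝ) ≤
      Nat.nth Nat.Prime n + η * Real.log (Nat.nth Nat.Prime n)}.ncard : ℝ)

/-- number of the `n` with `p_(n+k) ≤ X` and `p_(n+k) - p_n ≤ H` -/
noncomputable def number (k L s Q : ℕ) (w : Fin (k + 1) → (ZMod Q)ˣ) (X H : ℕ) : ℕ :=
  {n : ℕ | Reads L s Q w n ∧ Nat.nth Nat.Prime (n + k) ≤ X ∧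
    Nat.nth Nat.Prime (n + k) ≤ Nat.nth Nat.Prime n + H}.ncard

private theorem freq_of {k L s Q : ℕ} {w : Fin (k + 1) → (ZMod Q)ˣ}
    (h : Pool.Agent.H21.WP.Freq L s Q k w) : Frequent k L s Q w := by
  intro η hη
  obtain ⟨c, hc, h1⟩ := h η hη
  refine ⟨c, hc, h1.mono fun N hN => hN.trans (le_of_eq ?_)⟩
  congr 2
  ext n
  constructor
  · rintro ⟨⟨h2, h3⟩, h4⟩
    exact ⟨h4, h3, h2⟩
  · rintro ⟨h4, h3, h2⟩
    exact ⟨⟨h2, h3⟩, h4⟩

private theorem number_eq (k L s Q : ℕ) (w : Fin (k + 1) → (ZMod Q)ˣ) (X H : ℕ) :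
    (Pool.Agent.H21.WP.Hit L s Q w X H).ncard = number k L s Q w X H := by
  unfold number
  congr 1
  have hmono := (Nat.nth_strictMono Nat.infinite_setOfPred_prime).monotone
  ext n
  constructor
  · intro h
    have h1 := h (Fin.last k)
    rw [Fin.val_last] at h1
    exact ⟨fun j => ⟨(h j).2.2.1, (h j).2.2.2⟩, h1.1, h1.2.1⟩
  · rintro ⟨h1, h2, h3⟩ j
    have h4 : Nat.nth Nat.Prime (n + j) ≤ Nat.nth Nat.Prime (n + k) := hmono (by
      have := j.2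
      omega)
    exact ⟨h4.trans h2, h4.trans h3, (h1 j).1, (h1 j).2⟩

theorem result :
    (∃ t : ℕ → ℕ, t 1 = 3 ∧ ∀ k : ℕ, ∃ K : ℕ, ∀ L s : ℕ, 0 < L → Nat.Coprime s L →
      (∃ E : Finset ℕ, E.card < t k ∧ ∀ p : ℕ, p.Prime → Nat.Coprime p L → p ∉ E →
        ∀ (e : ℕ) (w : Fin (k + 1) → (ZMod (p ^ e))ˣ),
          Occurs k L s (p ^ e) w ∧ Frequent k L s (p ^ e) w) ∧
      (∃ Q₀ : ℕ, 0 < Q₀ ∧ ∀ Q : ℕ, 0 < Q → Nat.Coprime Q Q₀ →
        ∀ w : Fin (k + 1) → (ZMod Q)ˣ, Occurs k L s Q w ∧ Frequent k L s Q w) ∧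
      ∀ Q : ℕ, 0 < Q → Nat.Coprime Q L → ∃ c : ℝ, 0 < c ∧ ∃ H₀ X₀ : ℕ,
        ∀ X ≥ X₀, ∀ H ≥ H₀, (H : ℝ) ≤ Real.log X →
          Q.totient ^ (k + 1) ≤ t k * {w : Fin (k + 1) → (ZMod Q)ˣ |
            c * (H / Real.log X) ^ K * (X / Real.log X) ≤ (number k L s Q w X H : ℝ)}.ncard) ∧
    ∀ L s : ℕ, 0 < L → Nat.Coprime s L → ∃ p₀ p₁ : ℕ, ∀ p : ℕ, p.Prime → Nat.Coprime p L →
      ∀ (e r : ℕ) (a b : (ZMod (p ^ e))ˣ),
        (p ≠ p₀ → Occurs (2 * r + 1) L s (p ^ e) (fun i => if (i : ℕ) ≤ r then a else b)) ∧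
        (p ≠ p₁ → Frequent (2 * r + 1) L s (p ^ e) (fun i => if (i : ℕ) ≤ r then a else b)) := by
  refine ⟨?_, fun L s hL hs => ?_⟩
  · obtain ⟨t, ht, h⟩ := Pool.Agent.H21.WP.allW_all
    refine ⟨t, ht, fun k => ?_⟩
    obtain ⟨K, hK⟩ := h k
    refine ⟨K, fun L s hL hs => ?_⟩
    obtain ⟨⟨E, h2, h3⟩, ⟨Q₀, h4, h5⟩, h6⟩ := hK L s hL hs
    refine ⟨⟨E, h2, fun p hp hpL hpE e w =>
      ⟨(h3 p hp hpL hpE e w).1, freq_of (h3 p hp hpL hpE e w).2⟩⟩,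
      ⟨Q₀, h4, fun Q hQ hc w => ⟨(h5 Q hQ hc w).1, freq_of (h5 Q hQ hc w).2⟩⟩, fun Q hQ hQL => ?_⟩
    obtain ⟨c, hc, H₀, X₀, h7⟩ := h6 Q hQ hQL
    refine ⟨c, hc, H₀, X₀, fun X hX H hH hHX => (h7 X hX H hH hHX).trans ?_⟩
    simp only [number_eq]
    exact le_rfl
  · obtain ⟨p₀, p₁, h1⟩ := Pool.Agent.H21.WP.strings_all L s hL hs
    exact ⟨p₀, p₁, fun p hp hpL e r a b => ⟨(h1 p hp hpL e r a b).1,
      fun hne => freq_of ((h1 p hp hpL e r a b).2 hne)⟩⟩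

end Pool.Agent.Results.MP_8923e7_nt.ConsecutiveWords
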