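import Pool.Agent.H21.WP.Freq
import Pool.Agent.H21.PW.Words

/-!
MP_8923e7_nt, THEOREM W+: final theorems, from `CoreA`.
-/

namespace Pool.Agent.H21.WP

open Finset Pool.Agent.H96.WP Pool.Agent.H21.PW

/-- `CoreA` for all numbers of blocks -/
def CoreAll : Prop := ∀ e : ℝ, 0 < e → ∀ m : ℕ, 1 ≤ m → ∃ s K : ℕ, 1 ≤ s ∧ CoreA e m s K

/-- every modulus, every scale: a positive proportion of the words -/
theorem count_scale {s K : ℕ} (k : ℕ) (hs1 : 1 ≤ s) (h : CoreA (1 / 1000) (4 * (k + 1)) s K)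
    (L s₀ Q : ℕ) (hL : 0 < L) (hs : Nat.Coprime s₀ L) (hQ : 0 < Q) (hQL : Nat.Coprime Q L) :
    ∃ c : ℝ, 0 < c ∧ ∃ H₀ X₀ : ℕ, ∀ X ≥ X₀, ∀ H ≥ H₀, (H : ℝ) ≤ Real.log X →
      Q.totient ^ (k + 1) ≤ (4 * (k + 1) * s).choose (k + 1) *
        {w : Fin (k + 1) → (ZMod Q)ˣ | c * (H / Real.log X) ^ K * (X / Real.log X) ≤
          ((Hit L s₀ Q w X H).ncard : ℝ)}.ncard := by
  classical
  haveI : NeZero Q := ⟨hQ.ne'⟩
  obtain ⟨c, hc, H₀, X₀, hmain⟩ := words_fam k h L s₀ 1 (fun _ => Q) hL hs (fun _ => hQ)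
    (fun _ => hQL) (fun i j hij => absurd (Subsingleton.elim i j) hij)
  refine ⟨c, hc, H₀, X₀, fun X hX H hH hHX => ?_⟩
  have hU : Fintype.card (ZMod Q)ˣ = Q.totient := ZMod.card_units_eq_totient Q
  have h1 := count_words (U := (ZMod Q)ˣ) (n := 4 * (k + 1) * s) (k := k)
    (by rw [hU]; exact Nat.totient_pos.2 hQ) (by nlinarith)
    (univ.filter (fun w : Fin (k + 1) → (ZMod Q)ˣ =>
      c * (H / Real.log X) ^ K * (X / Real.log X) ≤ ((Hit L s₀ Q w X H).ncard : ℝ))) (fun cl => by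
      obtain ⟨I, hI, h2⟩ := hmain (fun _ => cl) X hX H hH hHX
      exact ⟨I, hI, mem_filter.2 ⟨mem_univ _, h2 0⟩⟩)
  rw [hU] at h1
  refine h1.trans (le_of_eq ?_)
  congr 1
  rw [← Set.ncard_coe_finset]
  congr 1
  ext w
  simp

/-- one of any `binom(n, k+1)` pairwise coprime moduli has all words -/
theorem freq_family {s K : ℕ} (k : ℕ) (h : CoreA (1 / 1000) (4 * (k + 1)) s K)
    (L s₀ t : ℕ) (ht : t = (4 * (k + 1) * s).choose (k + 1)) (Q : Fin t → ℕ) (hL : 0 < L)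
    (hs : Nat.Coprime s₀ L) (hQ : ∀ i, 0 < Q i) (hQL : ∀ i, Nat.Coprime (Q i) L)
    (hQQ : ∀ i j, i ≠ j → Nat.Coprime (Q i) (Q j)) :
    ∃ i, ∀ w : Fin (k + 1) → (ZMod (Q i))ˣ, Freq L s₀ (Q i) k w := by
  classical
  by_contra hcon
  push Not at hcon
  choose w hw using hcon
  obtain ⟨n, hn⟩ : ∃ n : ℕ, n = 4 * (k + 1) * s := ⟨_, rfl⟩
  have hcardI : Fintype.card {S : Finset (Fin n) // S.card = k + 1} = t := by
    rw [Fintype.card_finset_len, Fintype.card_fin, ht, hn]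
  obtain ⟨ev⟩ : Nonempty ({S : Finset (Fin n) // S.card = k + 1} ≃ Fin t) :=
    ⟨Fintype.equivFinOfCardEq hcardI⟩
  obtain ⟨c, hc, H₀, X₀, hmain⟩ := words_fam k h L s₀ t Q hL hs hQ hQL hQQ
  rw [← hn] at hmain
  -- the letters
  obtain ⟨lt, hltm⟩ : ∃ lt : ∀ i : Fin t, Fin n → (ZMod (Q i))ˣ,
      ∀ (S : {S : Finset (Fin n) // S.card = k + 1}) (l),
        lt (ev S) (S.1.orderEmbOfFin S.2 l) = w (ev S) l := by
    refine ⟨fun i d => if h : ∃ l, (ev.symm i).1.orderEmbOfFin (ev.symm i).2 l = d then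
      w i h.choose else 1, ?_⟩
    intro S l
    have hgen : ∀ S' : {S : Finset (Fin n) // S.card = k + 1}, S' = S →
        ∀ l', S'.1.orderEmbOfFin S'.2 l' = S.1.orderEmbOfFin S.2 l → l' = l := by
      rintro S' rfl l' h
      exact (S'.1.orderEmbOfFin S'.2).injective h
    have h : ∃ l', (ev.symm (ev S)).1.orderEmbOfFin (ev.symm (ev S)).2 l' =
        S.1.orderEmbOfFin S.2 l := by
      have hgen2 : ∀ S' : {S : Finset (Fin n) // S.card = k + 1}, S' = S →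
          ∃ l', S'.1.orderEmbOfFin S'.2 l' = S.1.orderEmbOfFin S.2 l := by
        rintro S' rfl
        exact ⟨l, rfl⟩
      exact hgen2 _ (ev.symm_apply_apply S)
    show (if h : ∃ l', (ev.symm (ev S)).1.orderEmbOfFin (ev.symm (ev S)).2 l' =
      S.1.orderEmbOfFin S.2 l then w (ev S) h.choose else 1) = _
    rw [dif_pos h]
    exact congrArg (w (ev S)) (hgen _ (ev.symm_apply_apply S) _ h.choose_spec)
  obtain ⟨i, hi⟩ := freq_of (L := L) (s := s₀) (K := K) Q (fun _ => k) w hc (H₀ := H₀)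
    (X₀ := X₀) (fun X hX H hH hHX => by
      obtain ⟨I, hI, h2⟩ := hmain lt X hX H hH hHX
      have hS : (univ.image I).card = k + 1 := by
        rw [card_image_of_injective _ hI.injective, card_univ, Fintype.card_fin]
      have hIS : I = (univ.image I).orderEmbOfFin hS :=
        Finset.orderEmbOfFin_unique hS (fun x => mem_image_of_mem I (mem_univ x)) hI
      refine ⟨ev ⟨univ.image I, hS⟩, ?_⟩
      have h3 := h2 (ev ⟨univ.image I, hS⟩)
      have h4 : lt (ev ⟨univ.image I, hS⟩) ∘ I = w (ev ⟨univ.image I, hS⟩) := by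
        funext l
        have h5 := hltm ⟨univ.image I, hS⟩ l
        have h6 : (univ.image I).orderEmbOfFin hS l = I l := (congrFun hIS l).symm
        rw [← h5]
        show lt _ (I l) = lt _ ((univ.image I).orderEmbOfFin hS l)
        rw [h6]
      rw [h4] at h3
      exact h3)
  exact hw i hi

/-- of two coprime moduli one has all words `a^(r+1) b^(r+1)` -/
theorem str_family (hC : CoreAll) (L s₀ : ℕ) (Q : Fin 2 → ℕ) (hL : 0 < L)
    (hs : Nat.Coprime s₀ L) (hQ : ∀ i, 0 < Q i) (hQL : ∀ i, Nat.Coprime (Q i) L)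
    (hQQ : ∀ i j, i ≠ j → Nat.Coprime (Q i) (Q j)) :
    ∃ i, ∀ (r : ℕ) (a b : (ZMod (Q i))ˣ), Freq L s₀ (Q i) (2 * r + 1) (strW a b r) := by
  by_contra hcon
  push Not at hcon
  choose r a b hw using hcon
  obtain ⟨R, hR⟩ : ∃ R : ℕ, ∀ i, r i ≤ R := by
    refine ⟨r 0 + r 1, fun i => ?_⟩
    fin_cases i
    · exact Nat.le_add_right _ _
    · exact Nat.le_add_left _ _
  obtain ⟨s, K, hs1, hcore⟩ := hC (1 / 1000) (by norm_num) (4 * (84 * (R + 1))) (by omega)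
  obtain ⟨c, hc, H₀, X₀, hmain⟩ := str_two R hs1 hcore L s₀ Q hL hs hQ hQL hQQ
  obtain ⟨i, hi⟩ := freq_of (L := L) (s := s₀) (K := K) Q (fun i => 2 * r i + 1)
    (fun i => strW (a i) (b i) (r i)) hc (H₀ := H₀) (X₀ := X₀) (fun X hX H hH hHX => by
      obtain ⟨i, hi⟩ := hmain a b X hX H hH hHX
      refine ⟨i, hi.trans ?_⟩
      have h1 := hR i
      have := hit_factor (L := L) (s := s₀) (Nat.succ_pos (2 * r i + 1)) (R - r i) (by omega)
        (strW (a i) (b i) (r i)) (strW (a i) (b i) R) (fun j => by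
          unfold strW
          show (if (j : ℕ) ≤ r i then a i else b i) = if R - r i + (j : ℕ) ≤ R then a i else b i
          by_cases h2 : (j : ℕ) ≤ r i
          · rw [if_pos h2, if_pos (by omega)]
          · rw [if_neg h2, if_neg (by omega)]) X H
      exact_mod_cast this)
  exact hw i hi

/-- all words, all primes but finitely many; fixed tuples and positive upper density -/
theorem all_words (hC : CoreAll) (k : ℕ) : ∃ t : ℕ, ∀ L s₀ : ℕ, 0 < L → Nat.Coprime s₀ L →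
    (∃ E : Finset ℕ, E.card < t ∧ ∀ p : ℕ, p.Prime → Nat.Coprime p L → p ∉ E →
      ∀ (e : ℕ) (w : Fin (k + 1) → (ZMod (p ^ e))ˣ),
        Occ k L s₀ (p ^ e) w ∧ Freq L s₀ (p ^ e) k w) ∧
    (∃ Q₀ : ℕ, 0 < Q₀ ∧ ∀ Q : ℕ, 0 < Q → Nat.Coprime Q Q₀ →
      ∀ w : Fin (k + 1) → (ZMod Q)ˣ, Occ k L s₀ Q w ∧ Freq L s₀ Q k w) := by
  classical
  obtain ⟨s, K, hs1, hcore⟩ := hC (1 / 1000) (by norm_num) (4 * (k + 1)) (by omega)
  obtain ⟨t, ht⟩ : ∃ t, t = (4 * (k + 1) * s).choose (k + 1) := ⟨_, rfl⟩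
  obtain ⟨t', ht'⟩ : ∃ t', t = t' + 1 := by
    have h1 : 0 < t := by
      rw [ht]
      exact Nat.choose_pos (by nlinarith)
    exact ⟨t - 1, by omega⟩
  refine ⟨t + (9 * (k + 1) ^ 2).choose (k + 1), fun L s₀ hL hs => ⟨?_, ?_⟩⟩
  · obtain ⟨E₁, h1, h2⟩ := primes_of_family
      (fun Q => ∀ w : Fin (k + 1) → (ZMod Q)ˣ, Freq L s₀ Q k w) L t
      (fun Q hQ hQL hQQ => freq_family k hcore L s₀ t ht Q hL hs hQ hQL hQQ)
    obtain ⟨E₂, h3, h4⟩ := occ_primes k L s₀ hL hs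
    refine ⟨E₁ ∪ E₂, lt_of_le_of_lt (card_union_le _ _) (by omega), fun p hp hpL hpE e w =>
      ⟨?_, ?_⟩⟩
    · exact h4 p hp hpL (fun h => hpE (mem_union_right _ h)) e w
    · exact h2 p hp hpL (fun h => hpE (mem_union_left _ h)) e w
  · obtain ⟨Q₁, h1, h2⟩ := Pool.Agent.H21.LP.adel
      (fun Q => ∀ w : Fin (k + 1) → (ZMod Q)ˣ, Freq L s₀ Q k w) L t' hL
      (fun Q hQ hQL hQQ => freq_family k hcore L s₀ (t' + 1) (by omega) Q hL hs hQ hQL hQQ)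
    obtain ⟨Q₂, h3, h4⟩ := occ_adelic k L s₀ hL hs
    exact ⟨Q₁ * Q₂, Nat.mul_pos h1 h3, fun Q hQ hc w =>
      ⟨h4 Q hQ (Nat.Coprime.coprime_mul_left_right hc) w,
        h2 Q hQ (Nat.Coprime.coprime_mul_right_right hc) w⟩⟩

/-- the words `a^(r+1) b^(r+1)`, all primes but one -/
theorem all_strings (hC : CoreAll) (L s₀ : ℕ) (hL : 0 < L) (hs : Nat.Coprime s₀ L) :
    ∃ p₀ : ℕ, ∀ p : ℕ, p.Prime → Nat.Coprime p L → p ≠ p₀ → ∀ (e r : ℕ) (a b : (ZMod (p ^ e))ˣ),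
      Freq L s₀ (p ^ e) (2 * r + 1) (strW a b r) := by
  obtain ⟨E, h1, h2⟩ := primes_of_family
    (fun Q => ∀ (r : ℕ) (a b : (ZMod Q)ˣ), Freq L s₀ Q (2 * r + 1) (strW a b r)) L 2
    (fun Q hQ hQL hQQ => str_family hC L s₀ Q hL hs hQ hQL hQQ)
  have h3 : E.card ≤ 1 := by omega
  obtain ⟨p₀, hp₀⟩ : ∃ p₀, ∀ p ∈ E, p = p₀ := by
    rcases Finset.card_le_one_iff_subset_singleton.1 h3 with ⟨x, hx⟩
    exact ⟨x, fun p hp => mem_singleton.1 (hx hp)⟩
  exact ⟨p₀, fun p hp hpL hne e r a b => h2 p hp hpL (fun h => hne (hp₀ p h)) e r a b⟩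

end Pool.Agent.H21.WP
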