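import Pool.Agent.H21.WP.Fin
import Pool.Agent.H72.PD.Pairs
import Pool.Agent.H72.PD.Occ
import Pool.Agent.H96.WP.Words

/-!
MP_8923e7_nt, THEOREM W+: the final theorems with `t 1 = 3`, from `coreA` (helper96), `pairs_scale` and `occ_strings`
(helper72).
-/

namespace Pool.Agent.H21.WP

open Finset Pool.Agent.H96.WP Pool.Agent.H21.PW

theorem core_all : CoreAll := fun e he m hm => coreA e he m hm

/-- the three statements about all words of length `k + 1` with the constant `t` -/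
def AllW (k t K L s₀ : ℕ) : Prop :=
  (∃ E : Finset ℕ, E.card < t ∧ ∀ p : ℕ, p.Prime → Nat.Coprime p L → p ∉ E →
    ∀ (e : ℕ) (w : Fin (k + 1) → (ZMod (p ^ e))ˣ),
      Occ k L s₀ (p ^ e) w ∧ Freq L s₀ (p ^ e) k w) ∧
  (∃ Q₀ : ℕ, 0 < Q₀ ∧ ∀ Q : ℕ, 0 < Q → Nat.Coprime Q Q₀ →
    ∀ w : Fin (k + 1) → (ZMod Q)ˣ, Occ k L s₀ Q w ∧ Freq L s₀ Q k w) ∧
  ∀ Q : ℕ, 0 < Q → Nat.Coprime Q L → ∃ c : ℝ, 0 < c ∧ ∃ H₀ X₀ : ℕ,
    ∀ X ≥ X₀, ∀ H ≥ H₀, (H : ℝ) ≤ Real.log X →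
      Q.totient ^ (k + 1) ≤ t * {w : Fin (k + 1) → (ZMod Q)ˣ |
        c * (H / Real.log X) ^ K * (X / Real.log X) ≤ ((Hit L s₀ Q w X H).ncard : ℝ)}.ncard

theorem allW_any (k : ℕ) : ∃ t K : ℕ, ∀ L s₀ : ℕ, 0 < L → Nat.Coprime s₀ L → AllW k t K L s₀ := by
  obtain ⟨t₁, h1⟩ := all_words core_all k
  obtain ⟨s₁, K, hs1, hcore⟩ := core_all (1 / 1000) (by norm_num) (4 * (k + 1)) (by omega)
  refine ⟨max t₁ ((4 * (k + 1) * s₁).choose (k + 1)), K, fun L s hL hs => ?_⟩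
  obtain ⟨⟨E, h2, h3⟩, h4⟩ := h1 L s hL hs
  refine ⟨⟨E, h2.trans_le (le_max_left _ _), h3⟩, h4, fun Q hQ hQL => ?_⟩
  obtain ⟨c, hc, H₀, X₀, h6⟩ := count_scale k hs1 hcore L s Q hL hs hQ hQL
  exact ⟨c, hc, H₀, X₀, fun X hX H hH hHX => (h6 X hX H hH hHX).trans
    (Nat.mul_le_mul_right _ (le_max_right _ _))⟩

/-- words of length `2` -/
theorem word_two {Q : ℕ} (w : Fin (1 + 1) → (ZMod Q)ˣ) : w = strW (w 0) (w 1) 0 := by
  funext i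
  unfold strW
  have h : ∀ i : Fin 2, w i = if (i : ℕ) ≤ 0 then w 0 else w 1 := by
    intro i
    fin_cases i
    · rfl
    · rfl
  exact h i

theorem allW_one : ∃ K : ℕ, ∀ L s₀ : ℕ, 0 < L → Nat.Coprime s₀ L → AllW 1 3 K L s₀ := by
  classical
  obtain ⟨t₁, K₁, h1⟩ := allW_any 1
  obtain ⟨s₁, K, hs1, hcore⟩ := core_all (1 / 1000) (by norm_num) 4 (by norm_num)
  refine ⟨K, fun L s hL hs => ⟨?_, (h1 L s hL hs).2.1, fun Q hQ hQL => ?_⟩⟩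
  · obtain ⟨E₁, h2, h3⟩ := Pool.Agent.H72.PD.occ_strings (fun e m he hm => core_all e he m hm) L s hL hs
    obtain ⟨p₀, h4⟩ := all_strings core_all L s hL hs
    refine ⟨insert p₀ E₁, lt_of_le_of_lt (card_insert_le _ _) (by omega),
      fun p hp hpL hpE e w => ?_⟩
    rw [mem_insert, not_or] at hpE
    rw [word_two w]
    exact ⟨h3 p hp hpL hpE.2 e 0 (w 0) (w 1), h4 p hp hpL hpE.1 e 0 (w 0) (w 1)⟩
  · haveI : NeZero Q := ⟨hQ.ne'⟩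
    obtain ⟨c, hc, H₀, X₀, h5⟩ := Pool.Agent.H72.PD.pairs_scale hcore L s Q hL hs hQ hQL
    refine ⟨c, hc, H₀, X₀, fun X hX H hH hHX => (h5 X hX H hH hHX).trans ?_⟩
    refine Nat.mul_le_mul_left 3 ?_
    refine Set.ncard_le_ncard_of_injOn (fun p : (ZMod Q)ˣ × (ZMod Q)ˣ => strW p.1 p.2 0) ?_ ?_
      (Set.toFinite _)
    · intro p hp
      exact hp
    · intro p _ q _ hpq
      have h6 : strW p.1 p.2 0 = strW q.1 q.2 0 := hpq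
      have h7 := congrFun h6 0
      have h8 := congrFun h6 1
      exact Prod.ext h7 h8

/-- the final theorem about all words -/
theorem allW_all : ∃ t : ℕ → ℕ, t 1 = 3 ∧ ∀ k : ℕ, ∃ K : ℕ, ∀ L s₀ : ℕ, 0 < L →
    Nat.Coprime s₀ L → AllW k (t k) K L s₀ := by
  choose t K h using allW_any
  refine ⟨fun k => if k = 1 then 3 else t k, if_pos rfl, fun k => ?_⟩
  show ∃ K : ℕ, ∀ L s₀ : ℕ, 0 < L → Nat.Coprime s₀ L → AllW k (if k = 1 then 3 else t k) K L s₀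
  by_cases hk : k = 1
  · subst hk
    rw [if_pos rfl]
    exact allW_one
  · rw [if_neg hk]
    exact ⟨K k, h k⟩

/-- strings -/
theorem strings_all (L s₀ : ℕ) (hL : 0 < L) (hs : Nat.Coprime s₀ L) : ∃ p₀ p₁ : ℕ,
    ∀ p : ℕ, p.Prime → Nat.Coprime p L → ∀ (e r : ℕ) (a b : (ZMod (p ^ e))ˣ),
      (p ≠ p₀ → Occ (2 * r + 1) L s₀ (p ^ e) (strW a b r)) ∧
      (p ≠ p₁ → Freq L s₀ (p ^ e) (2 * r + 1) (strW a b r)) := by
  obtain ⟨E, h1, h2⟩ := Pool.Agent.H72.PD.occ_strings (fun e m he hm => core_all e he m hm) L s₀ hL hs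
  obtain ⟨p₁, h3⟩ := all_strings core_all L s₀ hL hs
  obtain ⟨p₀, hp₀⟩ : ∃ p₀, ∀ p ∈ E, p = p₀ := by
    rcases Finset.card_le_one_iff_subset_singleton.1 (by omega : E.card ≤ 1) with ⟨x, hx⟩
    exact ⟨x, fun p hp => mem_singleton.1 (hx hp)⟩
  exact ⟨p₀, p₁, fun p hp hpL e r a b => ⟨fun hne => h2 p hp hpL (fun h => hne (hp₀ p h)) e r a b,
    fun hne => h3 p hp hpL hne e r a b⟩⟩

end Pool.Agent.H21.WP
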