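import Pool.Agent.H21.WP.Bridge

/-!
MP_8923e7_nt, THEOREM W+: the words `a .. a b .. b`, two coprime moduli. Four groups of `84 (k+1)` blocks; two groups
contain at least `k + 1` prime positions; the classes modulo the first modulus are `a a b b`, modulo the second `a b a b`.
-/

namespace Pool.Agent.H21.WP

open Finset Pool.Agent.H96.WP

/-- the word `a^(k+1) b^(k+1)` -/
def strW {Q : ℕ} (a b : (ZMod Q)ˣ) (k : ℕ) : Fin (2 * k + 1 + 1) → (ZMod Q)ˣ :=
  fun i => if (i : ℕ) ≤ k then a else b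

theorem idx {n : ℕ} (A : Finset (Fin n)) (f : Fin n → ℕ) (hf : Monotone f) (j : ℕ)
    (i : Fin A.card) :
    f (A.orderEmbOfFin rfl i) < j ↔ (i : ℕ) < (A.filter (fun x => f x < j)).card := by
  classical
  constructor
  · intro h
    have h1 : ((Finset.Iic i).map (A.orderEmbOfFin rfl).toEmbedding) ⊆
        A.filter (fun x => f x < j) := by
      intro x hx
      obtain ⟨y, hy, rfl⟩ := mem_map.1 hx
      rw [mem_filter]
      refine ⟨A.orderEmbOfFin_mem rfl y, lt_of_le_of_lt (hf ?_) h⟩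
      exact (A.orderEmbOfFin rfl).monotone (mem_Iic.1 hy)
    have h2 := card_le_card h1
    rw [card_map, Fin.card_Iic] at h2
    omega
  · intro h
    by_contra hcon
    push Not at hcon
    have h1 : A.filter (fun x => f x < j) ⊆ (Finset.Iio i).image (A.orderEmbOfFin rfl) := by
      intro x hx
      rw [mem_filter] at hx
      have h2 : x ∈ Set.range (A.orderEmbOfFin rfl) := by
        rw [A.range_orderEmbOfFin rfl]
        exact hx.1
      obtain ⟨y, rfl⟩ := h2
      refine mem_image_of_mem _ (mem_Iio.2 ?_)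
      by_contra hyi
      push Not at hyi
      have h3 := hf ((A.orderEmbOfFin rfl).monotone hyi)
      have h4 := hx.2
      omega
    have h2 := (card_le_card h1).trans card_image_le
    rw [Fin.card_Iio] at h2
    omega

/-- a factor `a^(k+1) b^(k+1)` around the cut `c` -/
theorem cut {L s Q k n : ℕ} (A : Finset (Fin n)) (cl : Fin n → (ZMod Q)ˣ) (a b : (ZMod Q)ˣ)
    (c : ℕ) (h1 : k + 1 ≤ c) (h2 : c + (k + 1) ≤ A.card)
    (ha : ∀ i : Fin A.card, c - (k + 1) ≤ i → (i : ℕ) < c → cl (A.orderEmbOfFin rfl i) = a)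
    (hb : ∀ i : Fin A.card, c ≤ i → (i : ℕ) < c + (k + 1) → cl (A.orderEmbOfFin rfl i) = b)
    (X H : ℕ) :
    (Hit L s Q (fun j : Fin A.card => cl (A.orderEmbOfFin rfl j)) X H).ncard ≤
      (Hit L s Q (strW a b k) X H).ncard := by
  refine hit_factor (Nat.succ_pos _) (c - (k + 1)) (by omega) _ _ (fun i => ?_) X H
  unfold strW
  have hi := i.2
  split_ifs with h
  · exact (ha ⟨c - (k + 1) + i, by omega⟩ (by simp) (by
      show c - (k + 1) + (i : ℕ) < c
      omega)).symm
  · exact (hb ⟨c - (k + 1) + i, by omega⟩ (by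
      show c ≤ c - (k + 1) + (i : ℕ)
      omega) (by
      show c - (k + 1) + (i : ℕ) < c + (k + 1)
      omega)).symm

theorem str_two {s K : ℕ} (k : ℕ) (hs1 : 1 ≤ s) (h : CoreA (1 / 1000) (4 * (84 * (k + 1))) s K)
    (L s₀ : ℕ) (Q : Fin 2 → ℕ) (hL : 0 < L) (hs : Nat.Coprime s₀ L)
    (hQ : ∀ i, 0 < Q i) (hQL : ∀ i, Nat.Coprime (Q i) L)
    (hQQ : ∀ i j, i ≠ j → Nat.Coprime (Q i) (Q j)) :
    ∃ c : ℝ, 0 < c ∧ ∃ H₀ X₀ : ℕ, ∀ a b : ∀ i : Fin 2, (ZMod (Q i))ˣ,
      ∀ X ≥ X₀, ∀ H ≥ H₀, (H : ℝ) ≤ Real.log X →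
        ∃ i, c * (H / Real.log X) ^ K * (X / Real.log X) ≤
          ((Hit L s₀ (Q i) (strW (a i) (b i) k) X H).ncard : ℝ) := by
  classical
  obtain ⟨R, hR⟩ : ∃ R : ℕ, R = 84 * (k + 1) := ⟨_, rfl⟩
  rw [← hR] at h
  have hR0 : 0 < R := by omega
  obtain ⟨c, hc, H₀, X₀, hmain⟩ := fam_core h (by norm_num) (by omega) L s₀ 2 Q hL hs hQ hQL hQQ
  refine ⟨c, hc, H₀, X₀, fun a b X hX H hH hHX => ?_⟩
  -- the groups
  obtain ⟨g, hg⟩ : ∃ g : Fin (4 * R * s) → ℕ, ∀ x, g x = (x.divNat : ℕ) / R := ⟨_, fun _ => rfl⟩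
  have hgm : Monotone g := by
    intro x y hxy
    rw [hg, hg]
    refine Nat.div_le_div_right ?_
    show (x : ℕ) / s ≤ (y : ℕ) / s
    exact Nat.div_le_div_right hxy
  have hg4 : ∀ x, g x < 4 := fun x => by
    rw [hg]
    have := x.divNat.2
    exact (Nat.div_lt_iff_lt_mul hR0).2 this
  obtain ⟨A, hA1, hA0, hA3⟩ := hmain
    (fun i x => if (i = 0 ∧ g x < 2) ∨ (i = 1 ∧ (g x = 0 ∨ g x = 2)) then a i else b i)
    X hX H hH hHX
  obtain ⟨N, hN⟩ : ∃ N : ℕ → ℕ, ∀ j, N j = (A.filter (fun x => g x < j)).card :=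
    ⟨_, fun _ => rfl⟩
  have hidx : ∀ (j : ℕ) (i : Fin A.card), g (A.orderEmbOfFin rfl i) < j ↔ (i : ℕ) < N j :=
    fun j i => by
      rw [hN]
      exact idx A g hgm j i
  have hN4 : N 4 = A.card := by
    rw [hN]
    congr 1
    exact Finset.filter_true_of_mem fun x _ => hg4 x
  have hN0 : N 0 = 0 := by
    rw [hN]
    simp
  have hNm : Monotone N := by
    intro i j hij
    rw [hN, hN]
    refine card_le_card fun x hx => ?_
    rw [mem_filter] at hx ⊢
    exact ⟨hx.1, by omega⟩
  -- the numbers of blocks which are hit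
  obtain ⟨B, hB⟩ : ∃ B : ℕ → ℕ, ∀ j, B j =
      ((A.image (Fin.divNat : Fin (4 * R * s) → Fin (4 * R))).filter
        (fun y : Fin (4 * R) => (y : ℕ) / R = j)).card :=
    ⟨_, fun _ => rfl⟩
  have hBR : ∀ j, B j ≤ R := by
    intro j
    rw [hB]
    have h1 : ((A.image (Fin.divNat : Fin (4 * R * s) → Fin (4 * R))).filter
        (fun y : Fin (4 * R) => (y : ℕ) / R = j)).card ≤
        (Finset.Ico (R * j) (R * j + R)).card := by
      refine card_le_card_of_injOn (fun y : Fin (4 * R) => (y : ℕ)) ?_ ?_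
      · intro y hy
        rw [mem_coe, mem_filter] at hy
        rw [mem_coe, mem_Ico]
        have h1 := Nat.div_add_mod (y : ℕ) R
        have h2 := Nat.mod_lt (y : ℕ) hR0
        rw [hy.2] at h1
        show R * j ≤ (y : ℕ) ∧ (y : ℕ) < R * j + R
        exact ⟨by omega, by omega⟩
      · intro y _ y' _ hyy
        exact Fin.ext hyy
    rw [Nat.card_Ico] at h1
    omega
  have hBN : ∀ j, N j + B j ≤ N (j + 1) := by
    intro j
    have h1 : B j ≤ (A.filter (fun x => g x = j)).card := by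
      rw [hB]
      have h2 : (A.image (Fin.divNat : Fin (4 * R * s) → Fin (4 * R))).filter
          (fun y : Fin (4 * R) => (y : ℕ) / R = j) ⊆
          (A.filter (fun x => g x = j)).image (Fin.divNat : Fin (4 * R * s) → Fin (4 * R)) := by
        intro y hy
        rw [mem_filter] at hy
        obtain ⟨x, hx, rfl⟩ := mem_image.1 hy.1
        refine mem_image_of_mem _ (mem_filter.2 ⟨hx, ?_⟩)
        rw [hg]
        exact hy.2
      exact (card_le_card h2).trans card_image_le
    have h2 : (A.filter (fun x => g x < j)).card + (A.filter (fun x => g x = j)).card =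
        (A.filter (fun x => g x < j + 1)).card := by
      rw [← card_union_of_disjoint (disjoint_filter.2 fun x _ h3 h4 => by omega)]
      congr 1
      ext x
      simp only [mem_union, mem_filter]
      constructor
      · rintro (h3 | h3)
        · exact ⟨h3.1, by omega⟩
        · exact ⟨h3.1, by omega⟩
      · rintro h3
        by_cases h4 : g x = j
        · exact Or.inr ⟨h3.1, h4⟩
        · exact Or.inl ⟨h3.1, by omega⟩
    rw [hN, hN, ← h2]
    omega
  have hBsum : (1036 * R : ℕ) ≤ 1000 * (B 0 + B 1 + B 2 + B 3) := by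
    have h1 : (A.image (Fin.divNat : Fin (4 * R * s) → Fin (4 * R))).card = B 0 + B 1 + B 2 + B 3 := by
      have h2 : (A.image (Fin.divNat : Fin (4 * R * s) → Fin (4 * R))).card = ∑ j ∈ range 4, B j := by
        rw [Finset.card_eq_sum_card_fiberwise (f := fun y : Fin (4 * R) => (y : ℕ) / R)
          (t := range 4)]
        · exact Finset.sum_congr rfl fun j _ => (hB j).symm
        · intro y _
          rw [mem_coe, mem_range]
          exact (Nat.div_lt_iff_lt_mul hR0).2 y.2
      rw [h2, Finset.sum_range_succ, Finset.sum_range_succ, Finset.sum_range_succ,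
        Finset.sum_range_one]
    rw [h1] at hA1
    have h3 : (1036 * R : ℝ) ≤ 1000 * (B 0 + B 1 + B 2 + B 3) := by
      push_cast at hA1
      linarith
    exact_mod_cast h3
  have e0 := hBR 0
  have e1 := hBR 1
  have e2 := hBR 2
  have e3 := hBR 3
  have n0 := hBN 0
  have n1 := hBN 1
  have n2 := hBN 2
  have n3 := hBN 3
  simp only [zero_add, Nat.reduceAdd] at n0 n1 n2 n3
  by_cases c1 : k + 1 ≤ N 2 ∧ N 2 + (k + 1) ≤ N 4
  · -- first modulus
    refine ⟨0, (hA3 0).trans ?_⟩
    have := cut (L := L) (s := s₀) (k := k) A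
      (fun x => if ((0 : Fin 2) = 0 ∧ g x < 2) ∨ ((0 : Fin 2) = 1 ∧ (g x = 0 ∨ g x = 2)) then a 0 else b 0)
      (a 0) (b 0) (N 2) c1.1 (by omega) (fun i _ h2 => if_pos (Or.inl ⟨rfl, (hidx 2 i).2 h2⟩))
      (fun i h1 _ => if_neg (by
        rintro (h3 | h3)
        · have := (hidx 2 i).1 h3.2
          omega
        · exact absurd h3.1 (by decide))) X H
    exact_mod_cast this
  · refine ⟨1, (hA3 1).trans ?_⟩
    by_cases c2 : k + 1 ≤ B 0 ∧ k + 1 ≤ B 1
    · have := cut (L := L) (s := s₀) (k := k) A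
        (fun x => if ((1 : Fin 2) = 0 ∧ g x < 2) ∨ ((1 : Fin 2) = 1 ∧ (g x = 0 ∨ g x = 2)) then a 1 else b 1)
        (a 1) (b 1) (N 1) (by omega) (by omega) (fun i _ h2 => if_pos (Or.inr ⟨rfl, Or.inl (by
          have := (hidx 1 i).2 h2
          omega)⟩))
        (fun i h1 h2 => if_neg (by
          have h4 := (hidx 2 i).2 (by omega)
          rintro (h3 | h3)
          · exact absurd h3.1 (by decide)
          · rcases h3.2 with h5 | h5
            · have := (hidx 1 i).1 (by omega)
              omega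
            · omega)) X H
      exact_mod_cast this
    · have := cut (L := L) (s := s₀) (k := k) A
        (fun x => if ((1 : Fin 2) = 0 ∧ g x < 2) ∨ ((1 : Fin 2) = 1 ∧ (g x = 0 ∨ g x = 2)) then a 1 else b 1)
        (a 1) (b 1) (N 3) (by omega) (by omega) (fun i h1 h2 => if_pos (Or.inr ⟨rfl, Or.inr (by
          have h3 := (hidx 3 i).2 h2
          have h4 : ¬ g (A.orderEmbOfFin rfl i) < 2 := fun h5 => by
            have := (hidx 2 i).1 h5
            omega
          omega)⟩))
        (fun i h1 h2 => if_neg (by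
          have h4 : ¬ g (A.orderEmbOfFin rfl i) < 3 := fun h5 => by
            have := (hidx 3 i).1 h5
            omega
          rintro (h3 | h3)
          · exact absurd h3.1 (by decide)
          · rcases h3.2 with h5 | h5
            · omega
            · omega)) X H
      exact_mod_cast this

end Pool.Agent.H21.WP
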