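import Pool.Agent.H21.WP.Scale
import Pool.Agent.H21.WP.Str
import Pool.Agent.H21.LP.Adel

/-!
MP_8923e7_nt, THEOREM W+: pigeonhole over finitely many words; from families of moduli to primes; counting words.
-/

namespace Pool.Agent.H21.WP

open Finset Pool.Agent.H96.WP

/-- pigeonhole: one of finitely many words is frequent -/
theorem freq_of {ι : Type} [Fintype ι] {L s K : ℕ} (Q k : ι → ℕ)
    (w : ∀ i, Fin (k i + 1) → (ZMod (Q i))ˣ) {c : ℝ} (hc : 0 < c) {H₀ X₀ : ℕ}
    (h : ∀ X ≥ X₀, ∀ H ≥ H₀, (H : ℝ) ≤ Real.log X →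
      ∃ i, c * (H / Real.log X) ^ K * (X / Real.log X) ≤ ((Hit L s (Q i) (w i) X H).ncard : ℝ)) :
    ∃ i, Freq L s (Q i) (k i) (w i) := by
  classical
  by_contra hcon
  push Not at hcon
  unfold Freq at hcon
  push Not at hcon
  choose η hη hbad using hcon
  obtain ⟨η₀, hη₀, hη₁, hle⟩ : ∃ η₀ : ℝ, 0 < η₀ ∧ η₀ ≤ 1 ∧ ∀ i, η₀ ≤ η i := by
    rcases isEmpty_or_nonempty ι with hι | hι
    · exact ⟨1, one_pos, le_rfl, fun i => (hι.false i).elim⟩
    · obtain ⟨i₀, hi₀⟩ := Finite.exists_min η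
      exact ⟨min (η i₀) 1, lt_min (hη i₀) one_pos, min_le_right _ _,
        fun i => (min_le_left _ _).trans (hi₀ i)⟩
  have hev : ∀ᶠ X : ℕ in Filter.atTop, ∃ i,
      c * ((⌊η₀ / 2 * Real.log X⌋₊ : ℕ) / Real.log X) ^ K * (X / Real.log X) ≤
        ((Hit L s (Q i) (w i) X ⌊η₀ / 2 * Real.log X⌋₊).ncard : ℝ) := by
    have h1 : ∀ᶠ X : ℕ in Filter.atTop, ((H₀ : ℝ) + 1) * 2 / η₀ ≤ Real.log (X : ℝ) :=
      (Real.tendsto_log_atTop.comp tendsto_natCast_atTop_atTop).eventually_ge_atTop _
    filter_upwards [h1, Filter.eventually_ge_atTop X₀] with X h2 h3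
    have hlog : 0 ≤ Real.log (X : ℝ) := le_trans (by positivity) h2
    refine h X h3 _ ?_ ?_
    · refine Nat.le_floor ?_
      rw [div_le_iff₀ hη₀] at h2
      nlinarith
    · refine (Nat.floor_le (by positivity)).trans ?_
      nlinarith
  obtain ⟨i, hi⟩ : ∃ i, ∃ᶠ X : ℕ in Filter.atTop,
      c * ((⌊η₀ / 2 * Real.log X⌋₊ : ℕ) / Real.log X) ^ K * (X / Real.log X) ≤
        ((Hit L s (Q i) (w i) X ⌊η₀ / 2 * Real.log X⌋₊).ncard : ℝ) := by
    by_contra hcon2
    push Not at hcon2
    obtain ⟨X, h1, h2⟩ := (hev.and (Filter.eventually_all.2 hcon2)).exists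
    obtain ⟨i, h3⟩ := h1
    exact absurd h3 (not_le.2 (h2 i))
  obtain ⟨c', hc', hN⟩ := near_of_hits (η := η₀) hη₀ hc hi
  refine hN ?_
  filter_upwards [hbad i c' hc'] with N h1 h2
  refine absurd (h2.trans ?_) (not_le.2 h1)
  have h3 : Near L s (Q i) (k i) (w i) η₀ ∩ {n | n < N} ⊆ Near L s (Q i) (k i) (w i) (η i) ∩ {n | n < N} :=
    Set.inter_subset_inter_left _ (near_mono (hle i))
  exact_mod_cast Set.ncard_le_ncard h3 ((Set.finite_lt_nat N).subset Set.inter_subset_right)

/-- from families of `t` moduli to prime powers -/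
theorem primes_of_family (P : ℕ → Prop) (L t : ℕ)
    (hfam : ∀ Q : Fin t → ℕ, (∀ i, 0 < Q i) → (∀ i, Nat.Coprime (Q i) L) →
      (∀ i j, i ≠ j → Nat.Coprime (Q i) (Q j)) → ∃ i, P (Q i)) :
    ∃ E : Finset ℕ, E.card < t ∧
      ∀ p : ℕ, p.Prime → Nat.Coprime p L → p ∉ E → ∀ e : ℕ, P (p ^ e) := by
  classical
  set S : Set ℕ := {p | p.Prime ∧ Nat.Coprime p L ∧ ∃ e : ℕ, ¬ P (p ^ e)} with hS
  have hfin : ∀ F : Finset ℕ, (F : Set ℕ) ⊆ S → F.card < t := by
    intro F hF
    by_contra hcon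
    push Not at hcon
    obtain ⟨G, hGF, hGc⟩ := Finset.exists_subset_card_eq hcon
    have h1 : ∀ i : Fin t, ((Finset.equivFinOfCardEq hGc).symm i).1 ∈ S := fun i =>
      hF (hGF ((Finset.equivFinOfCardEq hGc).symm i).2)
    choose e he using fun i => (h1 i).2.2
    obtain ⟨i, hi⟩ := hfam
      (fun i => ((Finset.equivFinOfCardEq hGc).symm i).1 ^ e i) (fun i => pow_pos (h1 i).1.pos _)
      (fun i => Nat.Coprime.pow_left _ (h1 i).2.1)
      (fun i j hij => by
        refine Nat.Coprime.pow _ _ ((Nat.coprime_primes (h1 i).1 (h1 j).1).2 ?_)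
        intro h
        exact hij ((Finset.equivFinOfCardEq hGc).symm.injective (Subtype.ext h)))
    exact he i hi
  have hSf : S.Finite := by
    by_contra hinf
    obtain ⟨F, hF, hFc⟩ := Set.Infinite.exists_subset_card_eq hinf t
    have := hfin F hF
    omega
  refine ⟨hSf.toFinset, hfin _ (by simp), fun p hp hpL hpE e => ?_⟩
  by_contra hcon
  exact hpE (hSf.mem_toFinset.2 ⟨hp, hpL, e, hcon⟩)

/-- counting: if every sequence of `n` letters has a subsequence of `k + 1` terms in `W`, then `W` contains at least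
`φ^(k+1) / binom(n, k+1)` words -/
theorem count_words {U : Type} [Fintype U] [DecidableEq U] {n k : ℕ} (hU : 0 < Fintype.card U)
    (hkn : k + 1 ≤ n) (W : Finset (Fin (k + 1) → U))
    (h : ∀ c : Fin n → U, ∃ I : Fin (k + 1) → Fin n, StrictMono I ∧ c ∘ I ∈ W) :
    Fintype.card U ^ (k + 1) ≤ n.choose (k + 1) * W.card := by
  classical
  set φ := Fintype.card U with hφ
  let A : Finset (Fin n) → Finset (Fin n → U) := fun S =>
    univ.filter (fun c => ∃ hS : S.card = k + 1, c ∘ S.orderEmbOfFin hS ∈ W)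
  have hcover : (univ : Finset (Fin n → U)) ⊆
      (powersetCard (k + 1) (univ : Finset (Fin n))).biUnion A := by
    intro c _
    obtain ⟨I, hI, hO⟩ := h c
    rw [mem_biUnion]
    refine ⟨univ.image I, ?_, ?_⟩
    · rw [mem_powersetCard]
      refine ⟨subset_univ _, ?_⟩
      rw [card_image_of_injective _ hI.injective, card_univ, Fintype.card_fin]
    · rw [mem_filter]
      have hS : (univ.image I).card = k + 1 := by
        rw [card_image_of_injective _ hI.injective, card_univ, Fintype.card_fin]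
      refine ⟨mem_univ _, hS, ?_⟩
      have h1 : I = (univ.image I).orderEmbOfFin hS :=
        Finset.orderEmbOfFin_unique hS (fun x => mem_image_of_mem I (mem_univ x)) hI
      rw [← h1]
      exact hO
  have hA : ∀ S ∈ powersetCard (k + 1) (univ : Finset (Fin n)),
      (A S).card ≤ W.card * φ ^ (n - (k + 1)) := by
    intro S hS
    have hSc : S.card = k + 1 := (mem_powersetCard.1 hS).2
    have h1 : Fintype.card ({d // d ∉ S} → U) = φ ^ (n - (k + 1)) := by
      rw [Fintype.card_fun, ← hφ]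
      congr 1
      rw [Fintype.card_subtype_compl, Fintype.card_coe, Fintype.card_fin, hSc]
    rw [← h1, ← Finset.card_univ (α := {d // d ∉ S} → U), ← card_product]
    refine card_le_card_of_injOn
      (fun c => (c ∘ S.orderEmbOfFin hSc, fun d : {d // d ∉ S} => c d.1)) ?_ ?_
    · intro c hc
      rw [mem_coe, mem_filter] at hc
      rw [mem_coe, mem_product]
      exact ⟨hc.2.2, mem_univ _⟩
    · intro c _ c' _ hcc
      have h2 : c ∘ S.orderEmbOfFin hSc = c' ∘ S.orderEmbOfFin hSc := congrArg Prod.fst hcc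
      have h3 : (fun d : {d // d ∉ S} => c d.1) = fun d : {d // d ∉ S} => c' d.1 :=
        congrArg Prod.snd hcc
      funext d
      by_cases hd : d ∈ S
      · have h4 : d ∈ Set.range (S.orderEmbOfFin hSc) := by
          rw [S.range_orderEmbOfFin hSc]
          exact hd
        obtain ⟨l, hl⟩ := h4
        rw [← hl]
        exact congrFun h2 l
      · exact congrFun h3 ⟨d, hd⟩
  have h2 : φ ^ n ≤ n.choose (k + 1) * (W.card * φ ^ (n - (k + 1))) := by
    calc φ ^ n = (univ : Finset (Fin n → U)).card := by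
          rw [card_univ, Fintype.card_fun, Fintype.card_fin]
      _ ≤ ((powersetCard (k + 1) (univ : Finset (Fin n))).biUnion A).card := card_le_card hcover
      _ ≤ ∑ S ∈ powersetCard (k + 1) (univ : Finset (Fin n)), (A S).card := card_biUnion_le
      _ ≤ ∑ _S ∈ powersetCard (k + 1) (univ : Finset (Fin n)),
          W.card * φ ^ (n - (k + 1)) := Finset.sum_le_sum hA
      _ = n.choose (k + 1) * (W.card * φ ^ (n - (k + 1))) := by
          rw [sum_const, card_powersetCard, card_univ, Fintype.card_fin, smul_eq_mul]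
  have h3 : φ ^ n = φ ^ (k + 1) * φ ^ (n - (k + 1)) := by
    rw [← pow_add]
    congr 1
    omega
  rw [h3, ← mul_assoc] at h2
  exact Nat.le_of_mul_le_mul_right h2 (pow_pos hU _)

end Pool.Agent.H21.WP
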