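import Pool.Agent.H21.WP.Df
import Pool.Agent.H5.Short.Second

/-!
MP_8923e7_nt, THEOREM W+: from the counts `Hit` at the scale `H = ⌊η / 2 log X⌋` to positive upper density of `Near`.
-/

namespace Pool.Agent.H21.WP

open Finset

theorem near_mono {L s Q k : ℕ} {w : Fin (k + 1) → (ZMod Q)ˣ} {η η' : ℝ} (h : η ≤ η') :
    Near L s Q k w η ⊆ Near L s Q k w η' := by
  rintro n ⟨h1, h2⟩
  refine ⟨h1.trans ?_, h2⟩
  have h3 : (0 : ℝ) ≤ Real.log (Nat.nth Nat.Prime n) := by
    refine Real.log_nonneg ?_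
    exact_mod_cast (Nat.prime_nth_prime n).one_lt.le
  have := mul_le_mul_of_nonneg_right h h3
  linarith

private theorem pc_le : ∃ C : ℝ, 0 < C ∧ ∀ X : ℕ, 2 ≤ X →
    (Nat.primeCounting X : ℝ) ≤ C * (X / Real.log X) := by
  obtain ⟨C, hC, h⟩ := Pool.Agent.H5.Short.pi_le
  refine ⟨C, hC, fun X hX => ?_⟩
  have h1 := h X hX
  have e : ((Icc 1 X).filter Nat.Prime).card = Nat.primeCounting X := by
    rw [Nat.primeCounting, Nat.primeCounting', Nat.count_eq_card_filter_range]
    congr 1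
    ext p
    simp only [mem_filter, mem_Icc, mem_range]
    constructor
    · rintro ⟨⟨_, h2⟩, h3⟩
      exact ⟨by omega, h3⟩
    · rintro ⟨h1, h2⟩
      exact ⟨⟨h2.one_lt.le, by omega⟩, h2⟩
  rw [e] at h1
  rw [← mul_div_assoc]
  exact h1

private theorem sqrt_small (c : ℝ) (hc : 0 < c) : ∃ X₁ : ℕ, ∀ X : ℕ, X₁ ≤ X →
    Real.sqrt X + 1 ≤ c * (X / Real.log X) := by
  have h1 : Filter.Tendsto (fun X : ℕ => Real.log (X : ℝ) / Real.sqrt X) Filter.atTop (nhds 0) := by
    have h2 : Filter.Tendsto (fun x : ℝ => Real.log x / Real.sqrt x) Filter.atTop (nhds 0) := by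
      have h3 := (isLittleO_log_rpow_atTop (r := 1 / 2) (by norm_num)).tendsto_div_nhds_zero
      refine h3.congr' ?_
      filter_upwards [Filter.eventually_gt_atTop 0] with x hx
      rw [Real.sqrt_eq_rpow]
    exact h2.comp tendsto_natCast_atTop_atTop
  have h3 := h1.eventually (gt_mem_nhds (show (0 : ℝ) < c / 2 by linarith))
  obtain ⟨X₁, hX₁⟩ := Filter.eventually_atTop.1 h3
  refine ⟨max X₁ 3, fun X hX => ?_⟩
  have h4 := hX₁ X (le_trans (le_max_left _ _) hX)
  have h5 : 3 ≤ X := le_trans (le_max_right _ _) hX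
  have h6 : (3 : ℝ) ≤ X := by exact_mod_cast h5
  have hlog : 0 < Real.log X := Real.log_pos (by linarith)
  have hs : 0 < Real.sqrt X := Real.sqrt_pos.2 (by linarith)
  have hs1 : 1 ≤ Real.sqrt X := by
    rw [show (1 : ℝ) = Real.sqrt 1 by simp]
    exact Real.sqrt_le_sqrt (by linarith)
  rw [div_lt_iff₀ hs] at h4
  have h7 : Real.sqrt X * Real.sqrt X = X := Real.mul_self_sqrt (by linarith)
  rw [← mul_div_assoc, le_div_iff₀ hlog]
  have h8 : (Real.sqrt X + 1) * Real.log X ≤ (2 * Real.sqrt X) * (c / 2 * Real.sqrt X) := by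
    have := mul_le_mul (show Real.sqrt X + 1 ≤ 2 * Real.sqrt X by linarith) h4.le hlog.le
      (by positivity)
    exact this
  have h9 : (2 * Real.sqrt X) * (c / 2 * Real.sqrt X) = c * (Real.sqrt X * Real.sqrt X) := by ring
  rw [h9, h7] at h8
  exact h8

/-- positive upper density from counts at the scale `⌊η / 2 log X⌋` -/
theorem near_of_hits {L s Q k K : ℕ} {w : Fin (k + 1) → (ZMod Q)ˣ} {η c : ℝ} (hη : 0 < η)
    (hc : 0 < c)
    (h : ∃ᶠ X : ℕ in Filter.atTop,
      c * ((⌊η / 2 * Real.log X⌋₊ : ℕ) / Real.log X) ^ K * (X / Real.log X) ≤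
        ((Hit L s Q w X ⌊η / 2 * Real.log X⌋₊).ncard : ℝ)) :
    ∃ c' : ℝ, 0 < c' ∧
      ∃ᶠ N : ℕ in Filter.atTop, c' * N ≤ ((Near L s Q k w η ∩ {n | n < N}).ncard : ℝ) := by
  obtain ⟨C, hC, hpc⟩ := pc_le
  obtain ⟨c₁, hc₁⟩ : ∃ c₁ : ℝ, c₁ = c * (η / 4) ^ K := ⟨_, rfl⟩
  have hc₁0 : 0 < c₁ := by
    rw [hc₁]
    positivity
  obtain ⟨X₁, hX₁⟩ := sqrt_small (c₁ / 2) (by linarith)
  obtain ⟨X₂, hX₂⟩ : ∃ X₂ : ℕ, ∀ X : ℕ, X₂ ≤ X → 4 / η ≤ Real.log X :=
    Filter.eventually_atTop.1
      ((Real.tendsto_log_atTop.comp tendsto_natCast_atTop_atTop).eventually_ge_atTop (4 / η))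
  refine ⟨c₁ / (2 * C), by positivity, ?_⟩
  have h2 : ∃ᶠ X : ℕ in Filter.atTop, c₁ / (2 * C) * (Nat.primeCounting X : ℕ) ≤
      ((Near L s Q k w η ∩ {n | n < Nat.primeCounting X}).ncard : ℝ) := by
    refine (h.and_eventually (Filter.eventually_ge_atTop (max (max X₁ X₂) 3))).mono ?_
    rintro X ⟨hX, hXX⟩
    have hXa : X₁ ≤ X := le_trans (le_trans (le_max_left _ _) (le_max_left _ _)) hXX
    have hXb : X₂ ≤ X := le_trans (le_trans (le_max_right _ _) (le_max_left _ _)) hXX
    have hXc : 3 ≤ X := le_trans (le_max_right _ _) hXX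
    have hX3 : (3 : ℝ) ≤ X := by exact_mod_cast hXc
    have hlog : 0 < Real.log X := Real.log_pos (by linarith)
    set H := ⌊η / 2 * Real.log X⌋₊ with hH
    have hHle : (H : ℝ) ≤ η / 2 * Real.log X := Nat.floor_le (by positivity)
    have hHge : η / 4 * Real.log X ≤ H := by
      have h3 := Nat.lt_floor_add_one (η / 2 * Real.log X)
      rw [← hH] at h3
      have h4 := hX₂ X hXb
      rw [div_le_iff₀ hη] at h4
      nlinarith
    have h3 : c₁ * (X / Real.log X) ≤ ((Hit L s Q w X H).ncard : ℝ) := by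
      refine le_trans ?_ hX
      rw [hc₁]
      have h4 : η / 4 ≤ (H : ℝ) / Real.log X := by
        rw [le_div_iff₀ hlog]
        exact hHge
      gcongr
    -- split at the square root
    have hfin := hit_finite L s Q (Nat.succ_pos k) w X H
    have h4 : (Hit L s Q w X H) ⊆ (Near L s Q k w η ∩ {n | n < Nat.primeCounting X}) ∪
        ((range (⌊Real.sqrt X⌋₊ + 1) : Finset ℕ) : Set ℕ) := by
      intro n hn
      have hk := hn (Fin.last k)
      have h0 := hn 0
      rw [Fin.val_last] at hk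
      rw [Fin.val_zero, add_zero] at h0
      by_cases hp : (Nat.nth Nat.Prime n : ℝ) ≤ Real.sqrt X
      · right
        rw [mem_coe, mem_range]
        have h5 : n ≤ Nat.nth Nat.Prime n :=
          (Nat.nth_strictMono Nat.infinite_setOfPred_prime).le_apply
        have h6 : Nat.nth Nat.Prime n ≤ ⌊Real.sqrt X⌋₊ := Nat.le_floor hp
        omega
      · left
        push Not at hp
        refine ⟨⟨?_, fun i => ⟨(hn i).2.2.1, (hn i).2.2.2⟩⟩, ?_⟩
        · have h5 : (Nat.nth Nat.Prime (n + k) : ℝ) ≤ Nat.nth Nat.Prime n + H := by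
            exact_mod_cast hk.2.1
          have h6 : Real.log X / 2 ≤ Real.log (Nat.nth Nat.Prime n) := by
            rw [← Real.log_sqrt (by positivity)]
            exact Real.log_le_log (Real.sqrt_pos.2 (by linarith)) hp.le
          have h7 : η / 2 * Real.log X ≤ η * Real.log (Nat.nth Nat.Prime n) := by
            calc η / 2 * Real.log X = η * (Real.log X / 2) := by ring
              _ ≤ _ := by gcongr
          linarith
        · show n < Nat.primeCounting X
          rw [Nat.primeCounting, Nat.primeCounting']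
          by_contra hcon
          push Not at hcon
          have h5 : X + 1 ≤ Nat.nth Nat.Prime n :=
            (Nat.count_le_iff_le_nth Nat.infinite_setOfPred_prime).1 hcon
          have h6 := h0.1
          omega
    have h5 : ((Hit L s Q w X H).ncard : ℝ) ≤
        ((Near L s Q k w η ∩ {n | n < Nat.primeCounting X}).ncard : ℝ) + (Real.sqrt X + 1) := by
      have hfin2 : (Near L s Q k w η ∩ {n | n < Nat.primeCounting X}).Finite :=
        (Set.finite_lt_nat _).subset Set.inter_subset_right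
      have h6 := Set.ncard_le_ncard h4 (hfin2.union (Finset.finite_toSet _))
      have h7 := h6.trans (Set.ncard_union_le _ _)
      rw [Set.ncard_coe_finset, card_range] at h7
      have h8 : ((⌊Real.sqrt X⌋₊ : ℕ) : ℝ) ≤ Real.sqrt X := Nat.floor_le (Real.sqrt_nonneg _)
      have h9 : ((Hit L s Q w X H).ncard : ℝ) ≤
          ((Near L s Q k w η ∩ {n | n < Nat.primeCounting X}).ncard : ℝ) +
            ((⌊Real.sqrt X⌋₊ : ℕ) + 1) := by exact_mod_cast h7
      linarith
    have h6 := hX₁ X hXa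
    have h7 := hpc X (by omega)
    have h8 : c₁ / (2 * C) * (Nat.primeCounting X : ℕ) ≤ c₁ / 2 * (X / Real.log X) := by
      calc c₁ / (2 * C) * (Nat.primeCounting X : ℕ)
          ≤ c₁ / (2 * C) * (C * (X / Real.log X)) := by gcongr
        _ = c₁ / 2 * (X / Real.log X) := by field_simp
    linarith
  exact (Nat.tendsto_primeCounting).frequently h2

end Pool.Agent.H21.WP
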